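import Pool.Agent.H60.CM.Targets

/-!
Row HZR: if the first integral vanishes the horizontal part of `n + H c` vanishes.
-/

set_option autoImplicit false

open Set Function MeasureTheory Filter Topology
open scoped Manifold ContDiff Matrix
open Pool.Agent.H60.CM

namespace Pool.Agent.H68.CM

/-- a vector orthogonal to the basis `X0, X1, n` vanishes; the coordinates -/
lemma orth (a0 a1 a2 b0 b1 b2 p q r w0 w1 w2 : ℝ)
    (hC : ¬ (a1 * b2 - a2 * b1 = 0 ∧ a2 * b0 - a0 * b2 = 0 ∧ a0 * b1 - a1 * b0 = 0))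
    (hu : p * p + q * q + r * r = 1) (hn0 : p * a0 + q * a1 + r * a2 = 0)
    (hn1 : p * b0 + q * b1 + r * b2 = 0) (hw0 : w0 * a0 + w1 * a1 + w2 * a2 = 0)
    (hw1 : w0 * b0 + w1 * b1 + w2 * b2 = 0) (hwn : w0 * p + w1 * q + w2 * r = 0) :
    w0 = 0 ∧ w1 = 0 ∧ w2 = 0 := by
  set C0 := a1 * b2 - a2 * b1 with h0
  set C1 := a2 * b0 - a0 * b2 with h1
  set C2 := a0 * b1 - a1 * b0 with h2
  have hCC : 0 < C0 * C0 + C1 * C1 + C2 * C2 := by
    rcases (by tauto : C0 ≠ 0 ∨ C1 ≠ 0 ∨ C2 ≠ 0) with h | h | h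
    · have := mul_self_pos.2 h
      nlinarith [mul_self_nonneg C1, mul_self_nonneg C2]
    · have := mul_self_pos.2 h
      nlinarith [mul_self_nonneg C0, mul_self_nonneg C2]
    · have := mul_self_pos.2 h
      nlinarith [mul_self_nonneg C0, mul_self_nonneg C1]
  have key : ∀ v0 v1 v2 : ℝ, v0 * a0 + v1 * a1 + v2 * a2 = 0 → v0 * b0 + v1 * b1 + v2 * b2 = 0 →
      v1 * C2 = v2 * C1 ∧ v2 * C0 = v0 * C2 ∧ v0 * C1 = v1 * C0 := by
    intro v0 v1 v2 ha hb
    rw [h0, h1, h2]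
    refine ⟨?_, ?_, ?_⟩
    · linear_combination (-b0) * ha + a0 * hb
    · linear_combination (-b1) * ha + a1 * hb
    · linear_combination (-b2) * ha + a2 * hb
  obtain ⟨n1, n2, n3⟩ := key p q r hn0 hn1
  obtain ⟨m1, m2, m3⟩ := key w0 w1 w2 hw0 hw1
  clear_value C0 C1 C2
  set wC := w0 * C0 + w1 * C1 + w2 * C2 with hwC
  set nC := p * C0 + q * C1 + r * C2 with hnC
  have hp : nC * nC = C0 * C0 + C1 * C1 + C2 * C2 := by
    rw [hnC]
    linear_combination (C0 * C0 + C1 * C1 + C2 * C2) * hu + (-(q * C2) + r * C1) * n1 +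
      (-(r * C0) + p * C2) * n2 + (-(p * C1) + q * C0) * n3
  have hwn' : wC * nC = 0 := by
    rw [hwC, hnC]
    linear_combination (C0 * C0 + C1 * C1 + C2 * C2) * hwn + (-(w1 * C2) + w2 * C1) * n1 +
      (-(w2 * C0) + w0 * C2) * n2 + (-(w0 * C1) + w1 * C0) * n3
  have hnC0 : nC ≠ 0 := by
    intro h
    rw [h] at hp
    linarith
  have hwC0 : wC = 0 := (mul_eq_zero.1 hwn').resolve_right hnC0
  have f0 : w0 * (C0 * C0 + C1 * C1 + C2 * C2) = 0 := by
    have : w0 * (C0 * C0 + C1 * C1 + C2 * C2) = C0 * wC := by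
      rw [hwC]
      linear_combination C1 * m3 - C2 * m2
    rw [this, hwC0, mul_zero]
  have f1 : w1 * (C0 * C0 + C1 * C1 + C2 * C2) = 0 := by
    have : w1 * (C0 * C0 + C1 * C1 + C2 * C2) = C1 * wC := by
      rw [hwC]
      linear_combination C2 * m1 - C0 * m3
    rw [this, hwC0, mul_zero]
  have f2 : w2 * (C0 * C0 + C1 * C1 + C2 * C2) = 0 := by
    have : w2 * (C0 * C0 + C1 * C1 + C2 * C2) = C2 * wC := by
      rw [hwC]
      linear_combination C0 * m2 - C1 * m1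
    rw [this, hwC0, mul_zero]
  exact ⟨(mul_eq_zero.1 f0).resolve_right hCC.ne', (mul_eq_zero.1 f1).resolve_right hCC.ne',
    (mul_eq_zero.1 f2).resolve_right hCC.ne'⟩

theorem pf_HZR : T_HZR := by
  intro X0 X1 n n0 n1 H h c h1 h2 h3 h4
  obtain ⟨imm, unit, nx0, nx1, nn0, nn1, sym, cmc⟩ := h
  simp only [cross_apply, e3, dotProduct, Fin.sum_univ_three, Matrix.cons_val_zero,
    Matrix.cons_val_one, Matrix.cons_val] at h1 h2 h3
  simp only [dotProduct, Fin.sum_univ_three] at unit nx0 nx1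
  by_cases hc : c 0 ^ 2 + c 1 ^ 2 = 0
  · have c0 : c 0 = 0 := by nlinarith [sq_nonneg (c 0), sq_nonneg (c 1)]
    have c1 : c 1 = 0 := by nlinarith [sq_nonneg (c 0), sq_nonneg (c 1)]
    rw [c0, c1] at h2 h3
    have hC : ¬ (X0 1 * X1 2 - X0 2 * X1 1 = 0 ∧ X0 2 * X1 0 - X0 0 * X1 2 = 0 ∧
        X0 0 * X1 1 - X0 1 * X1 0 = 0) := by
      rintro ⟨q0, q1, q2⟩
      apply imm
      rw [cross_apply, q0, q1, q2]
      funext i
      fin_cases i <;> rfl
    obtain ⟨w0, w1, -⟩ := orth (X0 0) (X0 1) (X0 2) (X1 0) (X1 1) (X1 2) (n 0) (n 1) (n 2)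
      (n 1) (-n 0) 0 hC unit nx0 nx1 (by linear_combination h2) (by linear_combination h3)
      (by ring)
    rw [c0, c1, w0]
    constructor
    · linarith
    · ring
  · constructor
    · have : (c 0 ^ 2 + c 1 ^ 2) * (n 0 + H * c 0) = 0 := by
        linear_combination c 0 * h4 - c 1 * h1
      exact (mul_eq_zero.1 this).resolve_left hc
    · have : (c 0 ^ 2 + c 1 ^ 2) * (n 1 + H * c 1) = 0 := by
        linear_combination c 1 * h4 + c 0 * h1
      exact (mul_eq_zero.1 this).resolve_left hc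

end Pool.Agent.H68.CM
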