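import Pool.Agent.H60.CM.Targets

/-!
Row UMB: if the horizontal part of the derivative of `n + H c` vanishes, the derivative vanishes.
-/

set_option autoImplicit false

open Set Function MeasureTheory Filter Topology
open scoped Manifold ContDiff Matrix
open Pool.Agent.H60.CM

namespace Pool.Agent.H68.CM

theorem pf_UMB : T_UMB := by
  intro X0 X1 n n0 n1 H h h1 h2 h3 h4
  obtain ⟨imm, unit, nx0, nx1, nn0, nn1, sym, cmc⟩ := h
  have c0 := congrFun cmc 0
  have c1 := congrFun cmc 1
  simp only [cross_apply, Pi.add_apply, Pi.smul_apply, smul_eq_mul, Matrix.cons_val_zero,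
    Matrix.cons_val_one] at c0 c1
  simp only [dotProduct, Fin.sum_univ_three] at sym
  set l0 := n0 2 + H * X0 2 with hl0
  set l1 := n1 2 + H * X1 2 with hl1
  -- the relations
  have r0 : l1 * X0 0 = l0 * X1 0 := by
    rw [hl0, hl1]
    linear_combination (-1 : ℝ) * c1 - X1 2 * h1 + X0 2 * h3
  have r1 : l1 * X0 1 = l0 * X1 1 := by
    rw [hl0, hl1]
    linear_combination c0 - X1 2 * h2 + X0 2 * h4
  have r2 : l1 * X0 2 = l0 * X1 2 := by
    rw [hl0, hl1]
    linear_combination sym + X1 0 * h1 + X1 1 * h2 - X0 0 * h3 - X0 1 * h4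
  have e0 : l0 = 0 := by
    by_contra hne
    apply imm
    have q0 : l0 * (X0 1 * X1 2 - X0 2 * X1 1) = 0 := by
      linear_combination (-X0 1) * r2 + X0 2 * r1
    have q1 : l0 * (X0 2 * X1 0 - X0 0 * X1 2) = 0 := by
      linear_combination (-X0 2) * r0 + X0 0 * r2
    have q2 : l0 * (X0 0 * X1 1 - X0 1 * X1 0) = 0 := by
      linear_combination (-X0 0) * r1 + X0 1 * r0
    rw [cross_apply, (mul_eq_zero.1 q0).resolve_left hne, (mul_eq_zero.1 q1).resolve_left hne,
      (mul_eq_zero.1 q2).resolve_left hne]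
    funext i
    fin_cases i <;> rfl
  have e1 : l1 = 0 := by
    by_contra hne
    apply imm
    have q0 : l1 * (X0 1 * X1 2 - X0 2 * X1 1) = 0 := by
      linear_combination X1 2 * r1 - X1 1 * r2
    have q1 : l1 * (X0 2 * X1 0 - X0 0 * X1 2) = 0 := by
      linear_combination X1 0 * r2 - X1 2 * r0
    have q2 : l1 * (X0 0 * X1 1 - X0 1 * X1 0) = 0 := by
      linear_combination X1 1 * r0 - X1 0 * r1
    rw [cross_apply, (mul_eq_zero.1 q0).resolve_left hne, (mul_eq_zero.1 q1).resolve_left hne,
      (mul_eq_zero.1 q2).resolve_left hne]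
    funext i
    fin_cases i <;> rfl
  constructor
  · funext i
    fin_cases i
    · exact h1
    · exact h2
    · exact e0
  · funext i
    fin_cases i
    · exact h3
    · exact h4
    · exact e1

end Pool.Agent.H68.CM
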